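import Mathlib

/-!
# Bases from decompositions
-/

set_option autoImplicit false
set_option linter.unusedSectionVars false

namespace Pool.Agent.Helper71.OZ

open Finset Module

variable {κ C : Type} [Field κ] [AddCommGroup C] [Module κ C]

/-- a basis modulo `V` which is a union of bases of the summands -/
theorem exists_basis {E V : Submodule κ C} (hE : (E : Set C).Countable) {m : ℕ}
    {T : Fin (m + 1) → Submodule κ C} (h1 : V ⊔ ⨆ i, T i = E)
    (h2 : ∀ v ∈ V, ∀ t : Fin (m + 1) → C, (∀ i, t i ∈ T i) → v + ∑ i, t i = 0 → v = 0 ∧ t = 0)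
    (h3 : ∀ i, ¬ Module.Finite κ (T i)) :
    ∃ (b : ℕ → C) (g : ℕ → Fin (m + 1)), (∀ l, b l ∈ T (g l)) ∧
      LinearIndependent κ (fun l => V.mkQ (b l)) ∧ V ⊔ Submodule.span κ (Set.range b) = E := by
  classical
  let B := fun i => Module.Basis.ofVectorSpace κ (T i)
  let P := Pi.basis B
  have hinf : ∀ i, Infinite (Module.Basis.ofVectorSpaceIndex κ (T i)) := by
    intro i
    by_contra hcon
    have hfin : Finite (Module.Basis.ofVectorSpaceIndex κ (T i)) := not_infinite_iff_finite.1 hcon
    exact h3 i (Module.Finite.of_basis (B i))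
  have hcount : ∀ i, Countable (Module.Basis.ofVectorSpaceIndex κ (T i)) := by
    intro i
    have hle : T i ≤ E := by
      rw [← h1]
      exact le_sup_of_le_right (le_iSup T i)
    have hTc : Countable (T i) := (hE.mono hle).to_subtype
    exact Function.Injective.countable (B i).injective
  have hc : Countable (Σ i, Module.Basis.ofVectorSpaceIndex κ (T i)) := inferInstance
  have hi : Infinite (Σ i, Module.Basis.ofVectorSpaceIndex κ (T i)) := by
    have := hinf 0
    exact Infinite.of_injective (fun x : Module.Basis.ofVectorSpaceIndex κ (T 0) =>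
      (⟨0, x⟩ : Σ i, Module.Basis.ofVectorSpaceIndex κ (T i))) (fun x y h => by
        simpa using h)
  obtain ⟨e⟩ : Nonempty ((Σ i, Module.Basis.ofVectorSpaceIndex κ (T i)) ≃ ℕ) := by
    obtain ⟨hd⟩ := nonempty_denumerable (Σ i, Module.Basis.ofVectorSpaceIndex κ (T i))
    exact ⟨Denumerable.eqv _⟩
  let ψ : (∀ i, T i) →ₗ[κ] C := ∑ i, (T i).subtype ∘ₗ LinearMap.proj i
  have hψ : ∀ t : ∀ i, T i, ψ t = ∑ i, (t i : C) := by
    intro t
    simp [ψ]
  have hψs : ∀ i (x : T i), ψ (Pi.single i x) = x := by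
    intro i x
    rw [hψ, Finset.sum_eq_single i]
    · rw [Pi.single_eq_same]
    · intro j _ hj
      rw [Pi.single_eq_of_ne hj]
      rfl
    · intro h
      exact absurd (Finset.mem_univ _) h
  have hker : LinearMap.ker (V.mkQ ∘ₗ ψ) = ⊥ := by
    rw [LinearMap.ker_eq_bot']
    intro t ht
    rw [LinearMap.comp_apply, Submodule.mkQ_apply, Submodule.Quotient.mk_eq_zero, hψ] at ht
    have h4 := (h2 (-∑ i, (t i : C)) (V.neg_mem ht) (fun i => (t i : C)) (fun i => (t i).2)
      (neg_add_cancel _)).2
    funext i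
    exact Subtype.ext (congrFun h4 i)
  have hli : LinearIndependent κ (fun x => V.mkQ (ψ (P x))) := P.linearIndependent.map' _ hker
  have hspan : Submodule.span κ (Set.range fun x => ψ (P x)) = ⨆ i, T i := by
    have h4 : Submodule.span κ (Set.range fun x => ψ (P x)) = LinearMap.range ψ := by
      rw [← Submodule.map_top, ← P.span_eq, Submodule.map_span, ← Set.range_comp]
      rfl
    rw [h4]
    apply le_antisymm
    · rintro _ ⟨t, rfl⟩
      rw [hψ]
      exact Submodule.sum_mem _ fun i _ => le_iSup T i (t i).2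
    · exact iSup_le fun i x hx => ⟨Pi.single i ⟨x, hx⟩, hψs i ⟨x, hx⟩⟩
  refine ⟨fun l => ψ (P (e.symm l)), fun l => (e.symm l).1, fun l => ?_,
    hli.comp _ e.symm.injective, ?_⟩
  · have h5 : P (e.symm l) = Pi.single (e.symm l).1 (B (e.symm l).1 (e.symm l).2) :=
      Pi.basis_apply B _
    show ψ (P (e.symm l)) ∈ T (e.symm l).1
    rw [h5, hψs]
    exact (B (e.symm l).1 (e.symm l).2).2
  · have h5 : (Set.range fun l => ψ (P (e.symm l))) = Set.range fun x => ψ (P x) := by
      ext y
      constructor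
      · rintro ⟨l, rfl⟩
        exact ⟨e.symm l, rfl⟩
      · rintro ⟨x, rfl⟩
        exact ⟨e x, by simp⟩
    rw [h5, hspan, h1]

end Pool.Agent.Helper71.OZ
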