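import Mathlib
import Pool.Graph.R_pool_sql_team_seeded_f72693b1.W245.BR.Lin3

set_option autoImplicit false
set_option linter.unusedVariables false
set_option linter.unusedSectionVars false
set_option linter.unusedSimpArgs false

/-!
# Generic combinations: relations of bounded total degree

Let `κ ⊂ K` be fields of characteristic `0`, `S` a finite set, `t_s`, `s ∈ S`, elements of `K` and
`i : S → ℕ` such that for every `n` the `t_s` with `i(s) = n` are linearly independent over `κ`. Let `w`
be a `κ`-linearly independent family of at least `|S|` elements and `y` in `K`. Then the elements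
`t_s x^{i(s)}`, `x = y + ∑ w_j X_j`, of `K[X]` are linearly independent over `κ[X]`.
-/

open Module MvPolynomial

noncomputable section

namespace Pool.Agent.Helper71.OZ

open Pool.Agent.W245.BR

variable {κ K : Type*} [Field κ] [CharZero κ] [Field K] [Algebra κ K]

open Classical in
theorem poly_indep' {J S : Type*} [Fintype J] [Fintype S] (D : ℕ) (w : J → K)
    (hw : LinearIndependent κ w) (y : K) (t : S → K) (i : S → ℕ) (hi : ∀ s, i s < D + 1)
    (ht : ∀ n, LinearIndependent κ (fun s : {s // i s = n} => t s))
    (hcard : Fintype.card S ≤ Fintype.card J)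
    (c : S → MvPolynomial J κ)
    (hc : ∑ s, MvPolynomial.map (algebraMap κ K) (c s) *
      (MvPolynomial.C (t s) *
        (MvPolynomial.C y + ∑ j, MvPolynomial.C (w j) * MvPolynomial.X j) ^ (i s)) = 0) :
    c = 0 := by
  by_contra hne
  obtain ⟨s0, hs0⟩ := Function.ne_iff.1 hne
  have hinj : Function.Injective (MvPolynomial.map (σ := J) (algebraMap κ K)) :=
    MvPolynomial.map_injective _ (algebraMap κ K).injective
  have hK : CharZero K := charZero_of_injective_algebraMap (algebraMap κ K).injective
  -- the derivation
  have hlt : Fintype.card {s : S // s ≠ s0} < Fintype.card J := by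
    have h1 : Fintype.card {s : S // s ≠ s0} < Fintype.card S :=
      Fintype.card_subtype_lt (x := s0) (by simp)
    exact lt_of_lt_of_le h1 hcard
  obtain ⟨v, hv0, hv⟩ := exists_kernel hlt
    (fun (s : {s : S // s ≠ s0}) (j : J) => c s0 * pderiv j (c s.1) - c s.1 * pderiv j (c s0))
  have hv' : ∀ s, c s0 * (∑ j, v j * pderiv j (c s)) = c s * (∑ j, v j * pderiv j (c s0)) := by
    intro s
    by_cases h : s = s0
    · rw [h]
    · have h1 := hv ⟨s, h⟩
      simp only at h1
      have h2 : ∑ j, (c s0 * pderiv j (c s) - c s * pderiv j (c s0)) * v j =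
          c s0 * (∑ j, v j * pderiv j (c s)) - c s * (∑ j, v j * pderiv j (c s0)) := by
        rw [Finset.mul_sum, Finset.mul_sum, ← Finset.sum_sub_distrib]
        apply Finset.sum_congr rfl
        intro j _
        ring
      rw [h2] at h1
      exact sub_eq_zero.1 h1
  set δK : Derivation K (MvPolynomial J K) (MvPolynomial J K) :=
    ∑ j, (MvPolynomial.map (algebraMap κ K) (v j)) • pderiv j with hδK
  have hδ_apply : ∀ p, δK p = ∑ j, MvPolynomial.map (algebraMap κ K) (v j) * pderiv j p := by
    intro p
    rw [hδK]
    have : ∀ (s : Finset J), (∑ j ∈ s, (MvPolynomial.map (algebraMap κ K) (v j)) • pderiv j :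
        Derivation K (MvPolynomial J K) (MvPolynomial J K)) p =
        ∑ j ∈ s, MvPolynomial.map (algebraMap κ K) (v j) * pderiv j p := by
      intro s
      induction s using Finset.induction_on with
      | empty => simp
      | insert a s ha ih =>
        rw [Finset.sum_insert ha, Finset.sum_insert ha, Derivation.add_apply, ih,
          Derivation.smul_apply, smul_eq_mul]
    exact this _
  have hδ_map : ∀ p : MvPolynomial J κ, δK (MvPolynomial.map (algebraMap κ K) p) =
      MvPolynomial.map (algebraMap κ K) (∑ j, v j * pderiv j p) := by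
    intro p
    rw [hδ_apply, map_sum]
    apply Finset.sum_congr rfl
    intro j _
    rw [map_mul, pderiv_map]
  set x : MvPolynomial J K := MvPolynomial.C y + ∑ j, MvPolynomial.C (w j) * MvPolynomial.X j with hx
  have hδx : δK x = ∑ j, MvPolynomial.map (algebraMap κ K) (v j) * MvPolynomial.C (w j) := by
    rw [hδ_apply]
    apply Finset.sum_congr rfl
    intro j _
    congr 1
    rw [hx, map_add, pderiv_C, zero_add, map_sum, Finset.sum_eq_single j]
    · rw [pderiv_C_mul, pderiv_X_self, mul_one]
    · intro b _ hb
      rw [pderiv_C_mul, pderiv_X_of_ne hb, mul_zero]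
    · intro h
      exact absurd (Finset.mem_univ _) h
  have hδx0 : δK x ≠ 0 := by
    intro h
    apply hv0
    funext j
    ext d
    have h1 := congrArg (MvPolynomial.coeff d) (hδx ▸ h : ∑ j, MvPolynomial.map (algebraMap κ K) (v j) *
      MvPolynomial.C (w j) = 0)
    rw [MvPolynomial.coeff_sum, MvPolynomial.coeff_zero] at h1
    have h2 : ∑ j, (v j).coeff d • w j = 0 := by
      rw [← h1]
      apply Finset.sum_congr rfl
      intro j _
      rw [mul_comm, MvPolynomial.coeff_C_mul, MvPolynomial.coeff_map, Algebra.smul_def, mul_comm]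
    have h3 := Fintype.linearIndependent_iff.1 hw _ h2 j
    rw [h3]
    rfl
  -- the coefficients
  set u : ℕ → MvPolynomial J K := fun n =>
    ∑ s : {s // i s = n}, MvPolynomial.map (algebraMap κ K) (c s) * MvPolynomial.C (t s) with hu
  set F : Polynomial (MvPolynomial J K) :=
    ∑ n ∈ Finset.range (D + 1), Polynomial.monomial n (u n) with hF
  have hu0 : ∀ n, ¬ n < D + 1 → u n = 0 := by
    intro n hn
    rw [hu]
    simp only
    apply Finset.sum_eq_zero
    rintro ⟨s, rfl⟩ -
    exact absurd (hi s) hn
  have hcoeff : ∀ n, F.coeff n = u n := by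
    intro n
    rw [hF, Polynomial.finsetSum_coeff]
    by_cases h : n < D + 1
    · rw [Finset.sum_eq_single n]
      · rw [Polynomial.coeff_monomial_same]
      · intro b _ hb
        rw [Polynomial.coeff_monomial_of_ne _ hb.symm]
      · intro h'
        exact absurd (Finset.mem_range.2 h) h'
    · rw [hu0 n h]
      apply Finset.sum_eq_zero
      intro b hb
      rw [Finset.mem_range] at hb
      rw [Polynomial.coeff_monomial_of_ne]
      omega
  have heval : F.eval x = 0 := by
    rw [hF, Polynomial.eval_finsetSum, ← hc]
    rw [← Finset.sum_fiberwise_of_maps_to (s := (Finset.univ : Finset S))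
      (t := Finset.range (D + 1)) (g := i) (fun s _ => Finset.mem_range.2 (hi s))]
    apply Finset.sum_congr rfl
    intro n _
    rw [Polynomial.eval_monomial, hu]
    simp only
    rw [Finset.sum_mul, Finset.sum_subtype (p := fun s => i s = n)
      (s := Finset.univ.filter fun s => i s = n) (by simp)]
    apply Finset.sum_congr rfl
    rintro ⟨s, rfl⟩ -
    ring
  set c0 : MvPolynomial J K := MvPolynomial.map (algebraMap κ K) (c s0) with hc0
  have hc0' : c0 ≠ 0 := by
    rw [hc0]
    intro h
    apply hs0
    rw [Pi.zero_apply]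
    apply hinj
    rw [h, map_zero]
  have hsemi : ∀ n, c0 * δK (F.coeff n) = δK c0 * F.coeff n := by
    intro n
    rw [hcoeff, hu]
    simp only
    rw [map_sum, Finset.mul_sum, Finset.mul_sum]
    apply Finset.sum_congr rfl
    intro s _
    rw [Derivation.leibniz, hδ_map, hc0, hδ_map]
    have h1 : δK (MvPolynomial.C (t s)) = 0 := Derivation.map_algebraMap δK (t s)
    rw [h1]
    simp only [smul_eq_mul, mul_zero, zero_add]
    have h2 := congrArg (MvPolynomial.map (algebraMap κ K)) (hv' s)
    rw [map_mul, map_mul] at h2
    calc _ = MvPolynomial.C (t s) * (MvPolynomial.map (algebraMap κ K) (c s0) *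
          MvPolynomial.map (algebraMap κ K) (∑ j, v j * pderiv j (c s))) := by ring
      _ = _ := by rw [h2]; ring
  have hF0 : F = 0 := deriv_root (δK.restrictScalars ℤ) c0 x hc0' hδx0 F hsemi heval
  apply hs0
  have h1 : u (i s0) = 0 := by rw [← hcoeff, hF0, Polynomial.coeff_zero]
  rw [hu] at h1
  simp only at h1
  ext d
  have h2 := congrArg (MvPolynomial.coeff d) h1
  rw [MvPolynomial.coeff_sum, MvPolynomial.coeff_zero] at h2
  have h3 : ∑ s : {s // i s = i s0}, (c s).coeff d • t s = 0 := by
    rw [← h2]
    apply Finset.sum_congr rfl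
    intro l _
    rw [mul_comm, MvPolynomial.coeff_C_mul, MvPolynomial.coeff_map, Algebra.smul_def, mul_comm]
  have h4 := Fintype.linearIndependent_iff.1 (ht (i s0)) _ h3 ⟨s0, rfl⟩
  simpa using h4

open Classical in
/-- one variable -/
theorem exists_one' {J S : Type*} [Fintype J] [Fintype S] (D : ℕ) (w : J → K)
    (hw : LinearIndependent κ w) (y : K) (t : S → K) (i : S → ℕ) (hi : ∀ s, i s < D + 1)
    (ht : ∀ n, LinearIndependent κ (fun s : {s // i s = n} => t s))
    (hcard : Fintype.card S ≤ Fintype.card J) :
    ∃ m : J → ℤ, LinearIndependent κ (fun s : S =>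
      t s * (y + ∑ j, ((m j : ℤ) : κ) • w j) ^ (i s)) := by
  set x : MvPolynomial J K := MvPolynomial.C y + ∑ j, MvPolynomial.C (w j) * MvPolynomial.X j with hx
  let e := (Fintype.equivFin S).symm
  obtain ⟨l, hl⟩ := exists_det (κ := κ) (Fintype.card S)
    (fun a => MvPolynomial.C (t (e a)) * x ^ (i (e a))) (by
      intro c hc
      have h1 := poly_indep' D w hw y t i hi ht hcard (fun s => c (e.symm s)) (by
        rw [← hc, ← e.sum_comp]
        simp [hx])
      funext a
      have := congrFun h1 (e a)
      simpa using this)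
  obtain ⟨m, hm⟩ := exists_int _ hl
  refine ⟨m, ?_⟩
  have h2 := spec_of_det _ l _ hm
  have h3 := h2.comp e.symm e.symm.injective
  convert h3 using 2 with s
  simp only [Function.comp_apply, Equiv.apply_symm_apply, map_mul, MvPolynomial.eval_C, map_pow, hx, map_sum,
    MvPolynomial.eval_X, map_add]
  congr 3
  apply Finset.sum_congr rfl
  intro j _
  rw [Algebra.smul_def, mul_comm]

end Pool.Agent.Helper71.OZ
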