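import Mathlib
import Pool.Agent.Helper71.OZ.Lin
import Pool.Graph.R_seed8.H297R2.Generic

set_option autoImplicit false

/-!
# Generic combinations satisfy no relations of bounded total degree
-/

open Module MvPolynomial

noncomputable section

namespace Pool.Agent.Helper71.OZ

open Pool.Agent.W245.BR
open Pool.Agent.H297R2 (Ex card_Ex)

variable {κ K : Type*} [Field κ] [CharZero κ] [Field K] [Algebra κ K]

/-- the exponents without the first one -/
def tl {k D : ℕ} (e : Ex (Fin (k + 1)) D) : Ex (Fin k) D :=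
  ⟨Finsupp.tail e.1, by
    have h1 : e.1.degree = ∑ i, e.1 i := Finsupp.degree_eq_sum _
    have h2 : (Finsupp.tail e.1).degree = ∑ i, (Finsupp.tail e.1) i := Finsupp.degree_eq_sum _
    have h3 := e.2
    rw [h1, Fin.sum_univ_succ] at h3
    rw [h2]
    simp only [Finsupp.tail_apply]
    omega⟩

theorem tl_apply {k D : ℕ} (e : Ex (Fin (k + 1)) D) (i : Fin k) : (tl e).1 i = e.1 i.succ :=
  Finsupp.tail_apply _ _

theorem tl_inj {k D : ℕ} {e e' : Ex (Fin (k + 1)) D} (h : tl e = tl e') (h0 : e.1 0 = e'.1 0) :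
    e = e' := by
  apply Subtype.ext
  ext i
  refine Fin.cases h0 (fun i => ?_) i
  rw [← tl_apply, ← tl_apply, h]

theorem card_mono (k D : ℕ) : Fintype.card (Ex (Fin k) D) ≤ Fintype.card (Ex (Fin (k + 1)) D) := by
  apply Fintype.card_le_of_injective (fun e : Ex (Fin k) D => (⟨Finsupp.cons 0 e.1, by
    have h1 : (Finsupp.cons 0 e.1).degree = ∑ i, (Finsupp.cons 0 e.1) i := Finsupp.degree_eq_sum _
    have h2 : e.1.degree = ∑ i, e.1 i := Finsupp.degree_eq_sum _
    rw [h1, Fin.sum_univ_succ]
    simp only [Finsupp.cons_zero, Finsupp.cons_succ, zero_add]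
    rw [← h2]
    exact e.2⟩ : Ex (Fin (k + 1)) D))
  intro e e' h
  apply Subtype.ext
  ext i
  have h1 := congrArg (fun z : Ex (Fin (k + 1)) D => z.1 i.succ) h
  simpa using h1

open Classical in
/-- several variables: one good integral point -/
theorem exists_point' {J ι : Type} [Fintype J] [Fintype ι] (D : ℕ) (w : J → K)
    (hw : LinearIndependent κ w) (t : ι → K) (ht : LinearIndependent κ t) :
    ∀ (k : ℕ) (y : Fin k → K), Fintype.card ι * Fintype.card (Ex (Fin k) D) ≤ Fintype.card J →
    ∃ m : Fin k → J → ℤ, LinearIndependent κ (fun s : ι × Ex (Fin k) D =>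
      t s.1 * ∏ i, (y i + ∑ j, ((m i j : ℤ) : κ) • w j) ^ (s.2.1 i)) := by
  intro k
  induction k with
  | zero =>
    intro y _
    refine ⟨Fin.elim0, ?_⟩
    have h2 : Function.Injective (fun s : ι × Ex (Fin 0) D => s.1) := by
      intro a b h
      refine Prod.ext h (Subtype.ext ?_)
      ext i
      exact i.elim0
    have h3 := ht.comp _ h2
    convert h3 using 2 with s
    simp
  | succ k ih =>
    intro y hcard
    obtain ⟨m', hm'⟩ := ih (fun i => y i.succ)
      ((Nat.mul_le_mul_left _ (card_mono k D)).trans hcard)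
    set x : Fin k → K := fun i => y i.succ + ∑ j, ((m' i j : ℤ) : κ) • w j with hx
    obtain ⟨m0, hm0⟩ := exists_one' (κ := κ) (S := ι × Ex (Fin (k + 1)) D) D w hw (y 0)
      (fun s => t s.1 * ∏ i, x i ^ ((tl s.2).1 i)) (fun s => s.2.1 0) (by
        intro s
        have h1 : s.2.1.degree = ∑ i, s.2.1 i := Finsupp.degree_eq_sum _
        have h2 := s.2.2
        rw [h1, Fin.sum_univ_succ] at h2
        show s.2.1 0 < D + 1
        omega) (by
        intro n
        have h1 : Function.Injective (fun s : {s : ι × Ex (Fin (k + 1)) D // s.2.1 0 = n} =>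
            ((s.1.1, tl s.1.2) : ι × Ex (Fin k) D)) := by
          rintro ⟨⟨a, e⟩, he⟩ ⟨⟨a', e'⟩, he'⟩ h
          simp only [Prod.mk.injEq] at h he he' ⊢
          apply Subtype.ext
          exact Prod.ext h.1 (tl_inj h.2 (he.trans he'.symm))
        exact hm'.comp _ h1) (by
        rw [Fintype.card_prod]
        exact hcard)
    refine ⟨Fin.cons m0 m', ?_⟩
    convert hm0 using 2 with s
    rw [Fin.prod_univ_succ]
    simp only [Fin.cons_zero, Fin.cons_succ, tl_apply, hx]
    ring

omit [CharZero κ] in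
/-- from linear independence of the products to the absence of relations -/
theorem no_rel_of (W : Submodule κ K) {k D : ℕ} (x : Fin k → K)
    (b : Basis (Fin (finrank κ W)) κ W)
    (h : LinearIndependent κ (fun s : Fin (finrank κ W) × Ex (Fin k) D =>
      (b s.1 : K) * ∏ i, x i ^ (s.2.1 i))) (Q : MvPolynomial (Fin k) K) (hQ : ∀ e, Q.coeff e ∈ W)
    (hQD : Q.totalDegree ≤ D) (h0 : MvPolynomial.eval x Q = 0) : Q = 0 := by
  classical
  have hsupp : ∀ s ∈ Q.support, s.degree ≤ D := fun s hs => (le_totalDegree hs).trans hQD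
  have h2 : ∀ e : Ex (Fin k) D, Q.coeff e.1 =
      ∑ l, (b.repr ⟨Q.coeff e.1, hQ _⟩ l) • (b l : K) := by
    intro e
    have h3 := b.sum_repr ⟨Q.coeff e.1, hQ e.1⟩
    have h4 := congrArg (Submodule.subtype W) h3
    rw [map_sum] at h4
    simp only [map_smul, Submodule.subtype_apply] at h4
    exact h4.symm
  have h5 : ∑ s : Fin (finrank κ W) × Ex (Fin k) D,
      (b.repr ⟨Q.coeff s.2.1, hQ _⟩ s.1) • ((b s.1 : K) * ∏ i, x i ^ (s.2.1 i)) = 0 := by
    rw [Fintype.sum_prod_type_right, ← h0]
    conv_rhs => rw [Q.as_sum, map_sum]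
    rw [← Finset.sum_subtype_of_mem (p := fun s : Fin k →₀ ℕ => s.degree ≤ D)
      (f := fun s => MvPolynomial.eval x (MvPolynomial.monomial s (Q.coeff s))) hsupp]
    symm
    apply Finset.sum_subset_zero_on_sdiff (Finset.subset_univ _)
    · intro s hs
      rw [Finset.mem_sdiff, Finset.mem_subtype] at hs
      have h6 : Q.coeff s.1 = 0 := MvPolynomial.notMem_support_iff.1 hs.2
      apply Finset.sum_eq_zero
      intro l _
      have h7 : (⟨Q.coeff s.1, hQ s.1⟩ : W) = 0 := Subtype.ext h6
      rw [h7, map_zero, Finsupp.zero_apply, zero_smul]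
    · intro s _
      rw [MvPolynomial.eval_monomial, Finsupp.prod_fintype _ _ (fun i => pow_zero _)]
      conv_lhs => rw [h2 s]
      rw [Finset.sum_mul]
      apply Finset.sum_congr rfl
      intro l _
      rw [smul_mul_assoc]
  have h6 := Fintype.linearIndependent_iff.1 h _ h5
  ext e
  rw [MvPolynomial.coeff_zero]
  by_cases he : e ∈ Q.support
  · rw [h2 ⟨e, hsupp e he⟩]
    apply Finset.sum_eq_zero
    intro l _
    rw [h6 (l, ⟨e, hsupp e he⟩), zero_smul]
  · exact MvPolynomial.notMem_support_iff.1 he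

open Classical in
/-- **Generic combinations, total degree.** -/
theorem lin_total {J : Type} [Fintype J] (w : J → K) (k D N : ℕ) (y : Fin k → K)
    (W : Submodule κ K) (hW : Module.Finite κ W) (hN : finrank κ W ≤ N)
    (hdim : N * (D + k).choose k ≤ finrank κ (Submodule.span κ (Set.range w))) :
    ∃ F : MvPolynomial (Fin k × J) κ, F ≠ 0 ∧ F.totalDegree ≤ N * (D + k).choose k * D ∧
      ∀ m : Fin k → J → κ, MvPolynomial.eval (fun p => m p.1 p.2) F ≠ 0 →
        ∀ Q : MvPolynomial (Fin k) K, (∀ e, Q.coeff e ∈ W) → Q.totalDegree ≤ D →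
          MvPolynomial.eval (fun i => y i + ∑ j, algebraMap κ K (m i j) * w j) Q = 0 → Q = 0 := by
  obtain ⟨ν, a, ha, hspan, hli⟩ := exists_linearIndependent' κ w
  have hfν : Finite ν := Finite.of_injective a ha
  have hν : Fintype ν := Fintype.ofFinite ν
  have hcard : finrank κ (Submodule.span κ (Set.range w)) = Fintype.card ν := by
    rw [← hspan]
    exact finrank_span_eq_card hli
  let b : Basis (Fin (finrank κ W)) κ W := Module.finBasis κ W
  have hb : LinearIndependent κ (fun i => (b i : K)) :=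
    b.linearIndependent.map' W.subtype (Submodule.ker_subtype W)
  let e := Fintype.equivFin ν
  obtain ⟨m, hm⟩ := exists_point' (κ := κ) (J := Fin (Fintype.card ν)) D
    (fun j => w (a (e.symm j))) (hli.comp e.symm e.symm.injective) _ hb k y (by
      rw [Fintype.card_fin, Fintype.card_fin, ← hcard]
      exact (Nat.mul_le_mul hN (card_Ex k D)).trans hdim)
  -- the polynomials
  set bb : Fin (finrank κ W) × Ex (Fin k) D → MvPolynomial (Fin k × J) K := fun s =>
    MvPolynomial.C (b s.1 : K) * ∏ i, (MvPolynomial.C (y i) +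
      ∑ j, MvPolynomial.C (w j) * MvPolynomial.X (i, j)) ^ (s.2.1 i) with hbb
  have heval : ∀ (m' : Fin k × J → κ) s, MvPolynomial.eval (fun p => algebraMap κ K (m' p)) (bb s) =
      (b s.1 : K) * ∏ i, (y i + ∑ j, algebraMap κ K (m' (i, j)) * w j) ^ (s.2.1 i) := by
    intro m' s
    rw [hbb]
    simp only [map_mul, MvPolynomial.eval_C, map_prod, map_pow, map_sum, MvPolynomial.eval_X,
      map_add]
    congr 2
    funext i
    congr 3
    funext j
    rw [mul_comm]
  set M : Fin k × J → κ := fun p => if h : ∃ l, a l = p.2 then ((m p.1 (e h.choose) : ℤ) : κ) else 0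
    with hM
  have hMx : ∀ i, ∑ j, algebraMap κ K (M (i, j)) * w j =
      ∑ j, ((m i j : ℤ) : κ) • w (a (e.symm j)) := by
    intro i
    rw [← e.sum_comp]
    simp only [Equiv.symm_apply_apply]
    have h1 : ∀ l, M (i, a l) = ((m i (e l) : ℤ) : κ) := by
      intro l
      rw [hM]
      have h2 : ∃ l', a l' = a l := ⟨l, rfl⟩
      simp only
      rw [dif_pos h2, ha h2.choose_spec]
    have h3 : ∑ l, ((m i (e l) : ℤ) : κ) • w (a l) =
        ∑ j ∈ Finset.univ.image a, algebraMap κ K (M (i, j)) * w j := by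
      rw [Finset.sum_image (fun x _ y _ h => ha h)]
      apply Finset.sum_congr rfl
      intro l _
      rw [h1, Algebra.smul_def]
    rw [h3]
    symm
    apply Finset.sum_subset (Finset.subset_univ _)
    intro j _ hj
    have h4 : ¬ ∃ l, a l = j := fun ⟨l, hl⟩ => hj (Finset.mem_image.2 ⟨l, Finset.mem_univ _, hl⟩)
    rw [hM]
    simp only
    rw [dif_neg h4, map_zero, zero_mul]
  have hpt : LinearIndependent κ (fun s => MvPolynomial.eval (fun i => algebraMap κ K (M i)) (bb s)) := by
    convert hm using 2 with s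
    rw [heval]
    congr 2
    funext i
    rw [hMx]
  have hdeg : ∀ s, (bb s).totalDegree ≤ D := by
    intro s
    rw [hbb]
    refine (totalDegree_mul _ _).trans ?_
    rw [totalDegree_C, zero_add]
    refine (totalDegree_finsetProd _ _).trans ?_
    have h1 : ∀ i : Fin k, (MvPolynomial.C (y i) + ∑ j, MvPolynomial.C (w j) *
        MvPolynomial.X (i, j) : MvPolynomial (Fin k × J) K).totalDegree ≤ 1 := by
      intro i
      refine (totalDegree_add _ _).trans (max_le ?_ ?_)
      · rw [totalDegree_C]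
        exact Nat.zero_le _
      · apply totalDegree_finsetSum_le
        intro j _
        refine (totalDegree_mul _ _).trans ?_
        rw [totalDegree_C, zero_add, totalDegree_X]
    refine (Finset.sum_le_sum (g := fun i => s.2.1 i) fun i _ => ?_).trans ?_
    · refine (totalDegree_pow _ _).trans ?_
      calc (s.2.1 i : ℕ) * _ ≤ s.2.1 i * 1 := Nat.mul_le_mul le_rfl (h1 i)
        _ = s.2.1 i := mul_one _
    · have h2 : s.2.1.degree = ∑ i, s.2.1 i := Finsupp.degree_eq_sum _
      rw [← h2]
      exact s.2.2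
  obtain ⟨F, h0, h1, h2⟩ := generic_of_point bb D hdeg M hpt
  refine ⟨F, h0, h1.trans ?_, fun m' hm' => ?_⟩
  · rw [Fintype.card_prod, Fintype.card_fin]
    exact Nat.mul_le_mul_right _ (Nat.mul_le_mul hN (card_Ex k D))
  · have h3 := h2 (fun p => m' p.1 p.2) hm'
    apply no_rel_of W _ b
    convert h3 using 2 with s
    rw [heval]

end Pool.Agent.Helper71.OZ
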