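import Mathlib
import Pool.Agent.Helper71.ET.Lift
import Pool.Agent.Helper71.OZ.Gen

/-!
# Decompositions of arbitrary infinite dimensional spaces of complex numbers
-/

set_option autoImplicit false

namespace Pool.Agent.Helper71.OZ

open Finset Module MvPolynomial
open Pool.Agent.Helper71.ET
open Pool.Agent.H297R2 (Ex card_Ex)

theorem many_li {F E : Type} [Field F] [AddCommGroup E] [Module F E] (h : ¬ Module.Finite F E)
    (R : ℕ) : ∃ u : Fin R → E, LinearIndependent F u := by
  let b := Module.Basis.ofVectorSpace F E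
  have hinf : Infinite (Module.Basis.ofVectorSpaceIndex F E) := by
    by_contra hcon
    have hfin : Finite (Module.Basis.ofVectorSpaceIndex F E) := not_infinite_iff_finite.1 hcon
    exact h (Module.Finite.of_basis b)
  exact ⟨fun i => b (Infinite.natEmbedding _ i), b.linearIndependent.comp _
    ((Infinite.natEmbedding _).injective.comp Fin.val_injective)⟩

section monomials

variable {k E : Type} [Field k] [Field E] [Algebra k E]

/-- the span of the monomials of degree at most `D` -/
noncomputable def monW {N : ℕ} (Θ : Fin N → E) (D : ℕ) : Submodule k E :=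
  Submodule.span k (Set.range fun e : Ex (Fin N) D => ∏ i, Θ i ^ (e : Fin N →₀ ℕ) i)

theorem monW_finite {N : ℕ} (Θ : Fin N → E) (D : ℕ) : Module.Finite k (monW (k := k) Θ D) :=
  FiniteDimensional.span_of_finite k (Set.finite_range _)

theorem finrank_monW {N : ℕ} (Θ : Fin N → E) (D : ℕ) :
    finrank k (monW (k := k) Θ D) ≤ (D + N).choose N :=
  (finrank_range_le_card _).trans (card_Ex N D)

/-- relations with parameters -/
theorem otr_of {N r : ℕ} {Θ : Fin N → E} {D : ℕ} {x : Fin r → E}
    (h : ∀ P : MvPolynomial (Fin r) E, (∀ s, P.coeff s ∈ monW (k := k) Θ D) → P.totalDegree ≤ D →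
      eval x P = 0 → P = 0) : OTR k D Θ x := by
  classical
  intro Q hQ h0 y
  have hinj : Function.Injective (Sum.inr : Fin r → Fin N ⊕ Fin r) := Sum.inr_injective
  have hinl : Function.Injective (Sum.inl : Fin N → Fin N ⊕ Fin r) := Sum.inl_injective
  set Qθ : MvPolynomial (Fin r) E := ∑ d ∈ Q.support,
    monomial (Finsupp.comapDomain Sum.inr d hinj.injOn)
      (algebraMap k E (Q.coeff d) * ∏ i, Θ i ^ (d (Sum.inl i))) with hQθ
  have hdeg : ∀ d ∈ Q.support, d.degree ≤ D := fun d hd => (le_totalDegree hd).trans hQ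
  have hsum : ∀ d : Fin N ⊕ Fin r →₀ ℕ,
      d.degree = ∑ i, d (Sum.inl i) + ∑ i, d (Sum.inr i) := fun d => by
    rw [Finsupp.degree_eq_sum, Fintype.sum_sum_type]
  have hev : ∀ y : Fin r → E, MvPolynomial.eval y Qθ = aeval (Sum.elim Θ y) Q := by
    intro y
    rw [hQθ, map_sum, aeval_def, eval₂_eq']
    apply Finset.sum_congr rfl
    intro d _
    rw [MvPolynomial.eval_monomial, Finsupp.prod_fintype _ _ (fun _ => pow_zero _),
      Fintype.prod_sum_type]
    simp only [Sum.elim_inl, Sum.elim_inr, Finsupp.comapDomain_apply]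
    rw [mul_assoc]
  have hz : Qθ = 0 := by
    apply h
    · intro s
      rw [hQθ, coeff_sum]
      apply Submodule.sum_mem
      intro d hd
      rw [coeff_monomial]
      split_ifs
      · have h4 : ∏ i, Θ i ^ (d (Sum.inl i)) ∈ monW (k := k) Θ D := by
          refine Submodule.subset_span ⟨⟨Finsupp.comapDomain Sum.inl d hinl.injOn, ?_⟩, ?_⟩
          · rw [Finsupp.degree_eq_sum]
            simp only [Finsupp.comapDomain_apply]
            have := hdeg d hd
            rw [hsum] at this
            omega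
          · simp only [Finsupp.comapDomain_apply]
        rw [← Algebra.smul_def]
        exact (monW (k := k) Θ D).smul_mem (Q.coeff d) h4
      · exact Submodule.zero_mem _
    · rw [hQθ]
      apply totalDegree_finsetSum_le
      intro d hd
      refine (totalDegree_monomial_le _ _).trans (le_trans ?_ (hdeg d hd))
      rw [Finsupp.sum_fintype _ _ (fun _ => rfl), hsum]
      simp only [Finsupp.comapDomain_apply]
      exact Nat.le_add_left _ _
    · rw [hev]
      exact h0
  rw [← hev, hz, map_zero]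

end monomials

variable {κ C : Type} [Field κ] [CharZero κ] [Field C] [Algebra κ C]

/-- generic elements of an infinite dimensional space -/
theorem gen1 {D : ℕ} {E : Submodule κ C} (hinf : ¬ Module.Finite κ E) {p : ℕ} (θ : Fin p → C)
    (m : ℕ) : ∃ z : Fin m → C, (∀ l, z l ∈ E) ∧ OTR κ D θ z := by
  classical
  obtain ⟨u, hu⟩ := many_li hinf (finrank κ (monW (k := κ) θ D) * (D + m).choose m)
  have hu' : LinearIndependent κ (fun j => (u j : C)) :=
    hu.map' E.subtype (Submodule.ker_subtype E)
  obtain ⟨F, hF0, -, hF⟩ := lin_total (κ := κ) (K := C) (fun j => (u j : C)) m D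
    (finrank κ (monW (k := κ) θ D)) (fun _ => 0) (monW (k := κ) θ D) (monW_finite θ D) le_rfl (by
      rw [finrank_span_eq_card hu', Fintype.card_fin])
  obtain ⟨c, hc⟩ := Pool.Agent.W245.BR.exists_int F hF0
  refine ⟨fun l => 0 + ∑ j, algebraMap κ C ((c (l, j) : ℤ) : κ) * (u j : C), fun l => ?_,
    otr_of fun P hP hPD hPx => hF (fun l j => ((c (l, j) : ℤ) : κ)) hc P hP hPD hPx⟩
  simp only [zero_add]
  refine Submodule.sum_mem _ fun j _ => ?_
  rw [← Algebra.smul_def]
  exact E.smul_mem _ (u j).2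

/-- generic pairs -/
theorem gen2 {D : ℕ} {S : Submodule κ C} (E₁ E₂ : Submodule κ S)
    (h₁ : ¬ Module.Finite κ E₁) (h₂ : ¬ Module.Finite κ E₂) :
    Gen κ D (fun (_ : Unit) (x : E₁) => ((x : S) : C)) (fun (_ : Unit) (x : E₂) => ((x : S) : C)) := by
  classical
  have hinf : Infinite κ := CharZero.infinite _
  have hfin : ∀ E : Submodule κ S, ¬ Module.Finite κ E →
      ¬ Module.Finite κ (E.map S.subtype) := by
    intro E hE hcon
    exact hE (Module.Finite.equiv
      (Submodule.equivMapOfInjective S.subtype S.injective_subtype E).symm)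
  intro p θ m
  obtain ⟨z₁, hz₁, ho₁⟩ := gen1 (D := D) (hfin E₁ h₁) θ m
  set e : Fin p ⊕ Fin m ≃ Fin (p + m) := finSumFinEquiv with he
  obtain ⟨z₂, hz₂, ho₂⟩ := gen1 (D := D) (hfin E₂ h₂) (Sum.elim θ z₁ ∘ e.symm) m
  have ho₃ : OTR κ D (Sum.elim θ z₁) z₂ := ho₂.reparam e
  have ho := ho₁.extend ho₃ (fun p => Aff.mem (Sum.elim θ z₁) (Sum.inl p))
    (fun s => Aff.mem (Sum.elim θ z₁) (Sum.inr s))
  choose x₁ hx₁ hxz₁ using hz₁
  choose x₂ hx₂ hxz₂ using hz₂
  refine ⟨fun l => ⟨x₁ l, hx₁ l⟩, fun l => ⟨x₂ l, hx₂ l⟩, ?_⟩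
  have h4 := ho.comp (f := (Sum.map Prod.snd Prod.snd : (Unit × Fin m) ⊕ (Unit × Fin m) → _)) (by
      rintro (⟨_, a⟩ | ⟨_, a⟩) (⟨_, b⟩ | ⟨_, b⟩) h
      · simpa using h
      · simp at h
      · simp at h
      · simpa using h)
  convert h4 using 1
  funext q
  rcases q with ⟨_, l⟩ | ⟨_, l⟩
  · simp only [co, Sum.elim_inl, Function.comp_apply, Sum.map_inl]
    exact hxz₁ l
  · simp only [co, Sum.elim_inr, Function.comp_apply, Sum.map_inr]
    exact hxz₂ l

/-- **Decompositions of countable infinite dimensional spaces.** -/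
theorem dec_any {S : Submodule κ C} (hc : (S : Set C).Countable)
    (hinf : ¬ Module.Finite κ S) {P : Type} [Fintype P] (θ : P → C) {V : Submodule κ C}
    (hVS : V ≤ S) (hV : V ≤ Aff κ θ) {D : ℕ} (hD : 1 ≤ D) (m : ℕ) :
    ∃ T : Fin (m + 1) → Submodule κ C, V ⊔ ⨆ i, T i = S ∧
      (∀ v ∈ V, ∀ t : Fin (m + 1) → C, (∀ i, t i ∈ T i) → v + ∑ i, t i = 0 → v = 0 ∧ t = 0) ∧
      (∀ i, ¬ Module.Finite κ (T i)) ∧
      ∀ (j : Fin (m + 1)) (r : ℕ) (y : Fin r → C), (∀ s, y s ∈ V ⊔ ⨆ i : {i // i ≠ j}, T i) →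
        (∀ c : Fin r → κ, ∑ s, c s • y s ∈ V → c = 0) → OTR κ D θ y := by
  classical
  have hinfQ : Infinite κ := CharZero.infinite _
  have hcS : Countable S := hc.to_subtype
  have hAf : Module.Finite κ (Aff κ θ) :=
    FiniteDimensional.span_of_finite κ ((Set.finite_range θ).insert 1)
  have hVf : Module.Finite κ V := Submodule.finiteDimensional_of_le hV
  have hQ : QL (Aff κ θ) (fun _ : Unit => RingHom.id κ) (fun (_ : Unit) (x : S) => (x : C)) := by
    refine ⟨fun i x y => ?_, fun i a x => ?_⟩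
    · rw [Submodule.coe_add, sub_self]
      exact Submodule.zero_mem _
    · rw [Submodule.coe_smul, Algebra.smul_def, RingHom.id_apply, sub_self]
      exact Submodule.zero_mem _
  have hVinf : ¬ Module.Finite κ (S ⧸ V.comap S.subtype) := by
    intro hfin
    apply hinf
    have h1 : Module.Finite κ (V.comap S.subtype) :=
      Module.Finite.equiv (Submodule.comapSubtypeEquivOfLe hVS).symm
    exact Module.Finite.of_submodule_quotient (V.comap S.subtype)
  obtain ⟨P₁, P₂, hd, -, hfree⟩ := exists_dec (κ := κ) (C := C) (D := D) hD (θ := θ) hQ hQ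
    (V₁ := V.comap S.subtype) (V₂ := V.comap S.subtype) (fun _ v hv => hV hv) (fun _ v hv => hV hv)
    gen2 hVinf hVinf m
  have hmapV : (V.comap S.subtype).map S.subtype = V := by
    rw [Submodule.map_comap_eq, Submodule.range_subtype]
    exact inf_eq_right.2 hVS
  refine ⟨fun i => (P₁ i).map S.subtype, ?_, ?_, ?_, ?_⟩
  · rw [← Submodule.map_iSup]
    conv_lhs => rw [← hmapV]
    rw [← Submodule.map_sup, hd.top, Submodule.map_top, Submodule.range_subtype]
  · intro v hv t ht h0
    choose x hx hxt using ht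
    have hsum : (⟨v, hVS hv⟩ : S) + ∑ i, x i = 0 := by
      apply Subtype.ext
      rw [Submodule.coe_add, Submodule.coe_sum]
      have : ∀ i, ((x i : S) : C) = t i := hxt
      simp only [this]
      exact h0
    have h2 : (⟨v, hVS hv⟩ : S) = 0 := by
      have h3 : (⟨v, hVS hv⟩ : S) ∈ ⨆ i, P₁ i := by
        rw [eq_neg_of_add_eq_zero_left hsum]
        exact Submodule.neg_mem _ (Submodule.sum_mem _ fun i _ => le_iSup P₁ i (hx i))
      exact (Submodule.disjoint_def.1 hd.disj) _ hv h3
    have h3 : ∑ i, x i = 0 := by rwa [h2, zero_add] at hsum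
    have h4 := (iSupIndep_iff_finsetSum_eq_zero_imp_eq_zero P₁).1 hd.indep Finset.univ
      x (fun i _ => hx i) h3
    refine ⟨congrArg Subtype.val h2, funext fun i => ?_⟩
    rw [← hxt i, h4 i (Finset.mem_univ i)]
    rfl
  · intro i hcon
    exact hd.inf i (Module.Finite.equiv
      (Submodule.equivMapOfInjective S.subtype S.injective_subtype (P₁ i)).symm)
  · intro j r y hy hli
    rw [← Submodule.map_iSup] at hy
    have hy' : ∀ s, y s ∈ (V.comap S.subtype ⊔ ⨆ i : {i // i ≠ j}, P₁ i).map S.subtype := by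
      intro s
      rw [Submodule.map_sup, hmapV]
      exact hy s
    choose x hx hxy using hy'
    have h4 := hfree j r x 0 Fin.elim0 hx (fun s => s.elim0) (by
        intro c hc
        apply hli
        have h5 : ∑ s, c s • y s = ((∑ s, c s • x s : S) : C) := by
          rw [Submodule.coe_sum]
          refine Finset.sum_congr rfl fun s _ => ?_
          rw [Submodule.coe_smul, ← hxy s]
          rfl
        rw [h5]
        exact hc) (fun c _ => Subsingleton.elim _ _)
    have h5 := h4.comp (f := fun s : Fin r => (Sum.inl ((), s) : (Unit × Fin r) ⊕ (Unit × Fin 0)))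
      (fun a b h => by simpa using h)
    convert h5 using 1
    funext s
    exact (hxy s).symm

end Pool.Agent.Helper71.OZ
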