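import Mathlib
import Pool.Agent.Helper71.OZ.Dec

/-!
# A criterion for algebraic independence in terms of decompositions
-/

set_option autoImplicit false
set_option linter.unusedSimpArgs false
set_option linter.unusedSectionVars false

namespace Pool.Agent.Helper71.OZ

open Finset Module MvPolynomial
open Pool.Agent.Helper71.ET

section nrel

variable {κ C : Type} [Field κ] [Field C] [Algebra κ C]

/-- an identity in the second variables with algebraically independent parameters vanishes -/
theorem zero_of_forall [Infinite C] {P σ : Type} {θ : P → C} (hθ : AlgebraicIndependent κ θ)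
    (R : MvPolynomial (P ⊕ σ) κ) (h : ∀ y : σ → C, aeval (Sum.elim θ y) R = 0) : R = 0 := by
  classical
  -- the polynomial in the second variables
  set e : MvPolynomial (P ⊕ σ) κ ≃ₐ[κ] MvPolynomial (σ ⊕ P) κ := renameEquiv κ (Equiv.sumComm P σ)
    with he
  set S : MvPolynomial σ (MvPolynomial P κ) := sumAlgEquiv κ σ P (e R) with hS
  have hinj : Function.Injective (MvPolynomial.map (σ := σ) (aeval θ : MvPolynomial P κ →ₐ[κ] C).toRingHom) :=
    MvPolynomial.map_injective _ hθ
  have hev : ∀ y : σ → C, MvPolynomial.eval y (MvPolynomial.map (aeval θ : MvPolynomial P κ →ₐ[κ] C).toRingHom S) =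
      aeval (Sum.elim θ y) R := by
    intro y
    have h1 : (MvPolynomial.eval y).comp ((MvPolynomial.map (aeval θ : MvPolynomial P κ →ₐ[κ] C).toRingHom).comp
        (((sumAlgEquiv κ σ P).toAlgHom.comp e.toAlgHom).toRingHom)) =
        (aeval (Sum.elim θ y) : MvPolynomial (P ⊕ σ) κ →ₐ[κ] C).toRingHom := by
      apply MvPolynomial.ringHom_ext
      · intro a
        simp [he, sumAlgEquiv_C_inl, sumAlgEquiv_X_inl, sumAlgEquiv_X_inr]
      · rintro (p | s)
        · simp [he, sumAlgEquiv_C_inl, sumAlgEquiv_X_inl, sumAlgEquiv_X_inr]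
        · simp [he, sumAlgEquiv_C_inl, sumAlgEquiv_X_inl, sumAlgEquiv_X_inr]
    exact RingHom.congr_fun h1 R
  have h2 : MvPolynomial.map (aeval θ : MvPolynomial P κ →ₐ[κ] C).toRingHom S = 0 := by
    apply MvPolynomial.funext
    intro y
    rw [hev, h, map_zero]
  have h3 : S = 0 := hinj (by rw [h2, map_zero])
  have h4 : e R = 0 := (sumAlgEquiv κ σ P).injective (by rw [← hS, h3, map_zero])
  exact e.injective (by rw [h4, map_zero])

/-- families in the span of a family without relations -/
theorem otr_span [Infinite κ] {D : ℕ} {P : Type} {θ : P → C} {n r : ℕ} {x : Fin r → C}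
    (h : OTR κ D θ x) {y : Fin n → C} (hy : ∀ l, y l ∈ Submodule.span κ (Set.range x))
    (hli : LinearIndependent κ y) : OTR κ D θ y := by
  classical
  choose A hA using fun l => (Submodule.mem_span_range_iff_exists_fun κ).1 (hy l)
  have hAli : LinearIndependent κ A := by
    rw [Fintype.linearIndependent_iff]
    intro c hc
    apply Fintype.linearIndependent_iff.1 hli c
    have h1 : ∑ l, c l • y l = ∑ s, (∑ l, c l • A l) s • x s := by
      simp only [Finset.sum_apply, Pi.smul_apply, smul_eq_mul, Finset.sum_smul]
      rw [Finset.sum_comm]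
      refine Finset.sum_congr rfl fun l _ => ?_
      rw [← hA l, Finset.smul_sum]
      exact Finset.sum_congr rfl fun s _ => by rw [smul_smul]
    rw [h1, hc]
    simp
  obtain ⟨B, hB⟩ := exists_right_inverse A hAli
  refine h.affine A (fun _ => 0) (fun _ => Submodule.zero_mem _) (fun l => ?_) (fun y' => ?_)
  · rw [add_zero, ← hA l]
    exact Finset.sum_congr rfl fun s _ => by rw [Algebra.smul_def]
  · refine ⟨fun s => ∑ l, algebraMap κ C (B s l) * y' l, fun l => ?_⟩
    calc ∑ s, algebraMap κ C (A l s) * ∑ l', algebraMap κ C (B s l') * y' l'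
        = ∑ l', (∑ s, algebraMap κ C (A l s * B s l')) * y' l' := by
          simp only [Finset.mul_sum, Finset.sum_mul, map_mul]
          rw [Finset.sum_comm]
          exact Finset.sum_congr rfl fun _ _ => Finset.sum_congr rfl fun _ _ => by ring
      _ = ∑ l', algebraMap κ C (if l = l' then 1 else 0) * y' l' := by
          refine Finset.sum_congr rfl fun l' _ => ?_
          rw [← map_sum, hB]
      _ = y' l := by
          rw [Finset.sum_eq_single l (fun b _ hb => by
            rw [if_neg (fun h => hb h.symm), map_zero, zero_mul])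
            (fun h => absurd (Finset.mem_univ _) h), if_pos rfl, map_one, one_mul]

end nrel

variable {κ C : Type} [Field κ] [CharZero κ] [Field C] [Algebra κ C]

/-- a family which is independent modulo parameters -/
theorem no_rel_cons [Infinite C] {D : ℕ} {q r : ℕ} {θ : Fin q → C} {z : C}
    (hθ : AlgebraicIndependent κ (Fin.cons z θ : Fin (q + 1) → C)) {e : Fin r → C}
    (h : OTR κ D (Fin.cons z θ : Fin (q + 1) → C) e) :
    OTR κ D θ (Fin.cons z e : Fin (r + 1) → C) := by
  classical
  intro Q hQ h0 y
  let f : Fin q ⊕ Fin (r + 1) → Fin (q + 1) ⊕ Fin r :=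
    Sum.elim (fun i => Sum.inl i.succ) (Fin.cases (Sum.inl 0) (fun s => Sum.inr s))
  have hf : Function.Injective f := by
    rintro (i | i) (j | j) hij
    · simpa [f] using hij
    · revert hij
      refine Fin.cases ?_ (fun j => ?_) j
      · intro h
        simp only [f, Sum.elim_inl, Sum.elim_inr, Fin.cases_zero, Sum.inl.injEq] at h
        exact absurd h (Fin.succ_ne_zero i)
      · intro h
        simp [f] at h
    · revert hij
      refine Fin.cases ?_ (fun i => ?_) i
      · intro h
        simp only [f, Sum.elim_inl, Sum.elim_inr, Fin.cases_zero, Sum.inl.injEq] at h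
        exact absurd h.symm (Fin.succ_ne_zero j)
      · intro h
        simp [f] at h
    · revert hij
      refine Fin.cases ?_ (fun i => ?_) i <;> refine Fin.cases ?_ (fun j => ?_) j
      · intro _
        rfl
      · intro h
        simp [f] at h
      · intro h
        simp [f] at h
      · intro h
        simp only [f, Sum.elim_inr, Fin.cases_succ, Sum.inr.injEq] at h
        rw [h]
  have key : aeval (Sum.elim (Fin.cons z θ : Fin (q + 1) → C) e) (rename f Q) =
      aeval (Sum.elim θ (Fin.cons z e : Fin (r + 1) → C)) Q := by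
    rw [aeval_rename]
    congr 2
    funext p
    rcases p with p | p
    · simp [f]
    · refine Fin.cases ?_ (fun p => ?_) p <;> simp [f]
  have h1 := h (rename f Q) ((totalDegree_rename_le _ _).trans hQ) (by rw [key, h0])
  have h2 := zero_of_forall hθ _ h1
  have h3 : Q = 0 := rename_injective f hf (by rw [h2, map_zero])
  rw [h3, map_zero]

/-- **The criterion.** -/
theorem crit {S : Submodule κ C} (hc : (S : Set C).Countable) (hinf : ¬ Module.Finite κ S) {q : ℕ}
    (θ : Fin q → C) {z : C} (hz : z ∈ S) (hz0 : z ≠ 0) :
    AlgebraicIndependent κ (Fin.cons z θ : Fin (q + 1) → C) ↔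
      ∀ D : ℕ, ∃ T : Fin 2 → Submodule κ C, ⨆ i, T i = S ∧
        (∀ t : Fin 2 → C, (∀ i, t i ∈ T i) → ∑ i, t i = 0 → t = 0) ∧
        (∀ i, ¬ Module.Finite κ (T i)) ∧ z ∈ T 0 ∧
        ∀ (i : Fin 2) (n : ℕ) (y : Fin n → C), (∀ l, y l ∈ T i) → LinearIndependent κ y →
          ∀ Q : MvPolynomial (Fin q ⊕ Fin n) κ, Q.totalDegree ≤ D →
            aeval (Sum.elim θ y) Q = 0 → Q = 0 := by
  classical
  have hinfQ : Infinite κ := CharZero.infinite _
  have hCz : CharZero C := charZero_of_injective_algebraMap (algebraMap κ C).injective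
  have hinfC : Infinite C := CharZero.infinite _
  constructor
  · intro hθ D
    have hθ' : AlgebraicIndependent κ θ := by
      have := hθ.comp Fin.succ (Fin.succ_injective _)
      have h1 : (Fin.cons z θ : Fin (q + 1) → C) ∘ Fin.succ = θ := by
        funext i
        simp
      rwa [h1] at this
    set V : Submodule κ C := Submodule.span κ {z} with hV
    have hVS : V ≤ S := (Submodule.span_singleton_le_iff_mem _ _).2 hz
    have hVA : V ≤ Aff κ (Fin.cons z θ : Fin (q + 1) → C) :=
      (Submodule.span_singleton_le_iff_mem _ _).2 (by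
        have := Aff.mem (κ := κ) (Fin.cons z θ : Fin (q + 1) → C) 0
        rwa [Fin.cons_zero] at this)
    obtain ⟨T, h1, h2, h3, h4⟩ := dec_any hc hinf (Fin.cons z θ : Fin (q + 1) → C) hVS hVA
      (D := max D 1) (le_max_right _ _) 1
    have hzV : z ∈ V := Submodule.mem_span_singleton_self z
    -- families in one of the two spaces
    have hmain : ∀ (j : Fin 2) (n : ℕ) (y : Fin n → C),
        (∀ l, y l ∈ V ⊔ ⨆ i : {i // i ≠ j}, T i) → LinearIndependent κ y →
        ∀ Q : MvPolynomial (Fin q ⊕ Fin n) κ, Q.totalDegree ≤ D →
          aeval (Sum.elim θ y) Q = 0 → Q = 0 := by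
      intro j n y hy hli Q hQ h0
      choose v hv g hg hvg using fun l => Submodule.mem_sup.1 (hy l)
      have hfin : Module.Finite κ (Submodule.span κ (Set.range g)) :=
        FiniteDimensional.span_of_finite κ (Set.finite_range g)
      let b := Module.finBasis κ (Submodule.span κ (Set.range g))
      set e : Fin (finrank κ (Submodule.span κ (Set.range g))) → C := fun s => (b s : C) with he
      have heG : ∀ s, e s ∈ ⨆ i : {i // i ≠ j}, T i := fun s =>
        (Submodule.span_le.2 (by rintro _ ⟨l, rfl⟩; exact hg l) : Submodule.span κ (Set.range g) ≤ _)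
          (b s).2
      have hle : (⨆ i : {i // i ≠ j}, T i) ≤ ⨆ i, T i := iSup_le fun i => le_iSup T (i : Fin 2)
      have hdisj : ∀ x ∈ ⨆ i, T i, x ∈ V → x = 0 := by
        intro x hx hxV
        obtain ⟨t, ht, htx⟩ : ∃ t : Fin 2 → C, (∀ i, t i ∈ T i) ∧ ∑ i, t i = x := by
          have h5 : x ∈ T 0 ⊔ T 1 := by
            have : (⨆ i, T i) = T 0 ⊔ T 1 := by
              apply le_antisymm
              · exact iSup_le fun i => by
                  fin_cases i
                  · exact le_sup_left
                  · exact le_sup_right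
              · exact sup_le (le_iSup T 0) (le_iSup T 1)
            rwa [this] at hx
          obtain ⟨a, ha, c, hc, rfl⟩ := Submodule.mem_sup.1 h5
          refine ⟨![a, c], ?_, by simp⟩
          intro i
          fin_cases i
          · exact ha
          · exact hc
        have h6 := h2 (-x) (V.neg_mem hxV) t ht (by rw [htx, neg_add_cancel])
        exact neg_eq_zero.1 h6.1
      have heli : ∀ c : Fin (finrank κ (Submodule.span κ (Set.range g))) → κ,
          ∑ s, c s • e s ∈ V → c = 0 := by
        intro c hc
        have h5 := hdisj _ (hle (Submodule.sum_mem _ fun s _ => Submodule.smul_mem _ _ (heG s))) hc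
        have h6 : ∑ s, c s • b s = 0 := by
          apply Subtype.ext
          rw [Submodule.coe_sum]
          simpa [he] using h5
        funext s
        exact Fintype.linearIndependent_iff.1 b.linearIndependent c h6 s
      have ho := h4 j _ e (fun s => Submodule.mem_sup_right (heG s)) heli
      have ho' := no_rel_cons hθ ho
      have hspan : ∀ l, y l ∈ Submodule.span κ (Set.range (Fin.cons z e :
          Fin (finrank κ (Submodule.span κ (Set.range g)) + 1) → C)) := by
        intro l
        rw [← hvg l]
        refine Submodule.add_mem _ ?_ ?_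
        · have : V ≤ Submodule.span κ (Set.range (Fin.cons z e :
              Fin (finrank κ (Submodule.span κ (Set.range g)) + 1) → C)) :=
            (Submodule.span_singleton_le_iff_mem _ _).2 (Submodule.subset_span ⟨0, by simp⟩)
          exact this (hv l)
        · have h5 : (⟨g l, Submodule.subset_span ⟨l, rfl⟩⟩ : Submodule.span κ (Set.range g)) =
              ∑ s, b.repr ⟨g l, Submodule.subset_span ⟨l, rfl⟩⟩ s • b s := (b.sum_repr _).symm
          have h6 := congrArg Subtype.val h5
          rw [Submodule.coe_sum] at h6
          simp only at h6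
          rw [h6]
          refine Submodule.sum_mem _ fun s _ => ?_
          exact Submodule.smul_mem _ _ (Submodule.subset_span ⟨s.succ, by simp [he]⟩)
      have ho'' := otr_span ho' hspan hli
      exact zero_of_forall hθ' Q (ho'' Q (hQ.trans (le_max_left _ _)) h0)
    have hsub0 : T 0 ≤ ⨆ i : {i : Fin 2 // i ≠ 1}, T i :=
      le_iSup (fun i : {i : Fin 2 // i ≠ 1} => T i) ⟨0, by decide⟩
    have hsub1 : T 1 ≤ ⨆ i : {i : Fin 2 // i ≠ 0}, T i :=
      le_iSup (fun i : {i : Fin 2 // i ≠ 0} => T i) ⟨1, by decide⟩
    have hsup : (⨆ i, T i) = T 0 ⊔ T 1 := by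
      apply le_antisymm
      · exact iSup_le fun i => by
          fin_cases i
          · exact le_sup_left
          · exact le_sup_right
      · exact sup_le (le_iSup T 0) (le_iSup T 1)
    refine ⟨![V ⊔ T 0, T 1], ?_, ?_, ?_, ?_, ?_⟩
    · rw [← h1, hsup, ← sup_assoc]
      apply le_antisymm
      · exact iSup_le fun i => by
          fin_cases i
          · exact le_sup_left
          · exact le_sup_right
      · exact sup_le (le_iSup (![V ⊔ T 0, T 1] : Fin 2 → Submodule κ C) 0)
          (le_iSup (![V ⊔ T 0, T 1] : Fin 2 → Submodule κ C) 1)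
    · intro t ht h0
      have ht0 : t 0 ∈ V ⊔ T 0 := ht 0
      have ht1 : t 1 ∈ T 1 := ht 1
      obtain ⟨v, hv, t', ht', hvt⟩ := Submodule.mem_sup.1 ht0
      have h5 := h2 v hv ![t', t 1] (by
        intro i
        fin_cases i
        · exact ht'
        · exact ht1) (by
        rw [Fin.sum_univ_two] at h0 ⊢
        simp only [Matrix.cons_val_zero, Matrix.cons_val_one]
        rw [← add_assoc, hvt]
        exact h0)
      have h6 : t' = 0 := congrFun h5.2 0
      have h7 : t 1 = 0 := congrFun h5.2 1
      funext i
      fin_cases i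
      · show t 0 = 0
        rw [← hvt, h5.1, h6, add_zero]
      · exact h7
    · intro i hcon
      fin_cases i
      · have hcon' : Module.Finite κ (V ⊔ T 0 : Submodule κ C) := hcon
        exact h3 0 (Submodule.finiteDimensional_of_le (le_sup_right : T 0 ≤ V ⊔ T 0))
      · exact h3 1 hcon
    · exact Submodule.mem_sup_left hzV
    · intro i n y hy
      fin_cases i
      · exact hmain 1 n y (fun l => sup_le_sup_left hsub0 V (hy l))
      · exact hmain 0 n y (fun l => Submodule.mem_sup_right (hsub1 (hy l)))
  · intro h
    rw [algebraicIndependent_iff]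
    intro P hP
    obtain ⟨T, -, -, -, hzT, hT⟩ := h P.totalDegree
    let f : Fin (q + 1) → Fin q ⊕ Fin 1 := Fin.cases (Sum.inr 0) (fun i => Sum.inl i)
    have hf : Function.Injective f := by
      intro i j
      refine Fin.cases ?_ (fun i => ?_) i <;> refine Fin.cases ?_ (fun j => ?_) j
      · intro _
        rfl
      · intro h
        simp [f] at h
      · intro h
        simp [f] at h
      · intro h
        simp only [f, Fin.cases_succ, Sum.inl.injEq] at h
        rw [h]
    have key : aeval (Sum.elim θ (fun _ : Fin 1 => z)) (rename f P) =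
        aeval (Fin.cons z θ : Fin (q + 1) → C) P := by
      rw [aeval_rename]
      congr 2
      funext i
      refine Fin.cases ?_ (fun i => ?_) i <;> simp [f]
    have h1 := hT 0 1 (fun _ => z) (fun _ => hzT) (by
      rw [Fintype.linearIndependent_iff]
      intro c hc i
      rw [Fin.sum_univ_one, smul_eq_zero] at hc
      rw [Subsingleton.elim i 0]
      exact hc.resolve_right hz0) (rename f P) (totalDegree_rename_le _ _) (by rw [key, hP])
    exact rename_injective f hf (by rw [h1, map_zero])

end Pool.Agent.Helper71.OZ
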