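import Mathlib
import Pool.Agent.Helper71.OZ.Gen
import Pool.Agent.Helper76.RJ.Fin

/-!
# Odd zeta values: independence over real number fields
-/

set_option autoImplicit false

namespace Pool.Agent.Helper71.OZ

open Module MvPolynomial
open Pool.Agent.H337R2 (zr)
open Pool.Agent.N797.PW (Wn)
open Pool.Agent.Helper76.RJ (xj)

/-- the odd numbers in the window -/
def win (b s : ℕ) : Finset ℕ := (Finset.Ioc b s).filter Odd

theorem mem_win {b s j : ℕ} : j ∈ win b s ↔ b < j ∧ j ≤ s ∧ Odd j := by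
  rw [win, Finset.mem_filter, Finset.mem_Ioc, and_assoc]

variable (F : IntermediateField ℚ ℝ) [FiniteDimensional ℚ F]

/-- independence in the field of complex numbers -/
theorem indepC {b S s E v m : ℕ} (hS : 1 ≤ S) (hs : Wn (b + E) S s) (c : ℕ → ℝ)
    (hc : ∃ l ≤ E, c l ≠ 0 ∧ Even l) (V : Submodule F ℝ) [Module.Finite F V]
    (hV : finrank F V ≤ v) (hcV : ∀ l ≤ E, c l ∈ V)
    (hd : finrank ℚ F * (v + m) ≤ S + finrank ℚ F) :
    ∃ J : Finset ℕ, J.card = m ∧ J ⊆ win b s ∧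
      LinearIndependent F (fun j : J => ((xj E c (j : ℕ) : ℝ) : ℂ)) := by
  obtain ⟨J, h1, h2, h3⟩ := Pool.Agent.Helper76.RJ.indep
    (Pool.Agent.Helper76.RJ.measure 0 hS hs) c (by
      obtain ⟨l, h1, h2, h3⟩ := hc
      exact ⟨l, h1, h2, by rwa [zero_add]⟩) hd F le_rfl V hV hcV
  refine ⟨J, h1, fun j hj => ?_, ?_⟩
  · obtain ⟨g1, g2, g3⟩ := h2 j hj
    rw [zero_add] at g3
    exact mem_win.2 ⟨g1, g2, g3⟩
  · have h4 : LinearIndependent F (fun j : J => xj E c (j : ℕ)) :=
      LinearIndependent.of_comp V.mkQ h3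
    let φ : ℝ →ₗ[F] ℂ := (Algebra.linearMap ℝ ℂ).restrictScalars F
    have hφ : LinearMap.ker φ = ⊥ := LinearMap.ker_eq_bot.2 Complex.ofReal_injective
    exact h4.map' φ hφ

/-- the dimension of the space spanned by the numbers -/
theorem rank_lower {b S s E v : ℕ} (hS : 1 ≤ S) (hs : Wn (b + E) S s) (c : ℕ → ℝ)
    (hc : ∃ l ≤ E, c l ≠ 0 ∧ Even l) (V : Submodule F ℝ) [Module.Finite F V]
    (hV : finrank F V ≤ v) (hcV : ∀ l ≤ E, c l ∈ V) :
    S < finrank ℚ F * (v + finrank F (Submodule.span F (Set.range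
      fun j : win b s => ((xj E c (j : ℕ) : ℝ) : ℂ)))) := by
  set f := finrank ℚ F with hf
  set R := finrank F (Submodule.span F (Set.range
      fun j : win b s => ((xj E c (j : ℕ) : ℝ) : ℂ))) with hR
  by_contra hcon
  rw [not_lt] at hcon
  obtain ⟨J, h1, h2, h3⟩ := indepC F (m := R + 1) hS hs c hc V hV hcV (by
    rw [← hf, ← add_assoc, mul_add f (v + R) 1, mul_one]
    omega)
  have hfin : Module.Finite F (Submodule.span F (Set.range
      fun j : win b s => ((xj E c (j : ℕ) : ℝ) : ℂ))) :=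
    FiniteDimensional.span_of_finite F (Set.finite_range _)
  have h4 : finrank F (Submodule.span F (Set.range fun j : J => ((xj E c (j : ℕ) : ℝ) : ℂ))) ≤ R := by
    refine Submodule.finrank_mono (Submodule.span_mono ?_)
    rintro _ ⟨j, rfl⟩
    exact ⟨⟨j, h2 j.2⟩, rfl⟩
  rw [finrank_span_eq_card h3, Fintype.card_coe, h1] at h4
  omega

theorem xj_one (j : ℕ) : xj 0 (fun _ => 1) j = zr j := by
  simp [xj]

theorem zr_eq {j : ℕ} (hj : 2 ≤ j) : ((zr j : ℝ) : ℂ) = riemannZeta j := by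
  rw [zeta_nat_eq_tsum_of_gt_one (by omega : 1 < j), zr, Complex.ofReal_tsum]
  have h1 : Summable (fun n : ℕ => 1 / (n : ℂ) ^ j) := by
    have := (Complex.summable_one_div_nat_cpow (p := (j : ℂ))).2 (by
      rw [Complex.natCast_re]
      exact_mod_cast hj)
    simpa using this
  rw [h1.tsum_eq_zero_add]
  have h2 : (1 : ℂ) / ((0 : ℕ) : ℂ) ^ j = 0 := by
    rw [Nat.cast_zero, zero_pow (by omega), div_zero]
  rw [h2, zero_add]
  congr 1
  funext n
  push_cast
  rfl

/-- spaces which contain the odd zeta values have infinite dimension -/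
theorem not_finite {E : Submodule F ℂ} (hE : ∀ j : ℕ, Odd j → 3 ≤ j → riemannZeta j ∈ E) :
    ¬ Module.Finite F E := by
  intro hfin
  set f := finrank ℚ F with hf
  set m := finrank F E + 1 with hm
  set S := f * m + 1 with hS
  obtain ⟨J, h1, h2, h3⟩ := indepC F (b := 2) (E := 0) (v := 1) (m := m) (S := S)
    (s := 2 ^ 41 * (S ^ 2 * (Nat.log 2 S + 1) * ((2 + 0) + S ^ 2 * (Nat.log 2 S + 1) ^ 2)))
    (by omega) le_rfl (fun _ => 1) ⟨0, le_rfl, one_ne_zero, Even.zero⟩
    (Submodule.span F {(1 : ℝ)}) (by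
      exact (finrank_span_le_card _).trans (by simp)) (fun _ _ => Submodule.mem_span_singleton_self _) (by
      rw [← hf, hS, mul_add, mul_one]
      omega)
  have h4 : ∀ j : J, ((xj 0 (fun _ => 1) (j : ℕ) : ℝ) : ℂ) ∈ E := by
    intro j
    have h5 := mem_win.1 (h2 j.2)
    rw [xj_one, zr_eq (by omega)]
    exact hE j h5.2.2 h5.1
  have h5 : LinearIndependent F (fun j : J => (⟨_, h4 j⟩ : E)) :=
    LinearIndependent.of_comp E.subtype h3
  have h6 := h5.fintype_card_le_finrank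
  rw [Fintype.card_coe, h1, hm] at h6
  omega

end Pool.Agent.Helper71.OZ
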